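import Pool.Agent.K7.H48.IdealForce

/-!
# An ideal whose generic ultrafilter is not Tukey-idempotent

In ZFC there is an ideal `I` on `ℕ` such that `P(ω)/I` is atomless and adds no reals, and all
conditions force that the Fubini square `U · U` of the generic ultrafilter `U` is not Tukey below
`U`.

Idea of the proof. There is a tree of height `ω₁` of approximations to ideals, each of them
consisting of an `F_σ` ideal `J` and of countably many sets which are promised to remain positive.
The immediate successors of a node are indexed by the tasks, of which there are continuum many; the
nodes come with sets, which are contained in each other modulo finite sets along the branches of the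
tree and almost disjoint for incompatible nodes, and the complement of the set belonging to a node
is in the `F_σ` ideal of the node. A set is positive if at some node it contains, modulo the ideal
of the node, one of the sets promised to remain positive. The generic ultrafilter picks a branch
of length `ω₁` of the tree, and by genericity all the tasks are done along this branch. See
`Pool.Agent.K7.H48.IdealKill` for the main lemma, which destroys the codes of monotone maps into
`ω^ω`.
-/

set_option autoImplicit false

namespace Pool.Agent.Results.MP_8214d2_lc.NotTukeyIdempotent

open Pool.Agent.K7.H48.IC
open Pool.Agent.R906.TT (IsIdeal Atomless Pos posPreorder gen NoNewSubsets IsUltra TukeyLe)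
open Pool.Agent.Helper292.ForceCH (fnot)

/-- There is an ideal `I` on `ℕ` such that `P(ω)/I` is atomless, and all conditions force that there
are no new subsets of `ℕ`, the generic filter `U` is an ultrafilter, and `U · U` is not Tukey below
`U`, so that `U` is not Tukey-idempotent. -/
theorem result : ∃ (I : Set (Set ℕ)) (hI : IsIdeal I), Atomless I ∧
    letI : Preorder (Pos I) := posPreorder hI
    ∀ p : Pos I, p ∈ NoNewSubsets (Pos I) ℕ ∧ p ∈ IsUltra (gen I) ∧
      p ∈ fnot (TukeyLe (fub (gen I) (gen I)) (gen I)) := by
  have h := nice_tI
  have hI : Fact (IsIdeal tI) := ⟨h.ideal⟩
  exact ⟨tI, h.ideal, h.atomless, fun p => ⟨noNew h p, gen_ultra p, not_tukeyLe h p⟩⟩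

end Pool.Agent.Results.MP_8214d2_lc.NotTukeyIdempotent
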